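import Pool.Agent.H75.PRL.S3
import Pool.Agent.H5.AVS.RIP

/-!
# The Poonen-Rains law, module LHS: the Hilbert symbol at `P`
-/

set_option autoImplicit false

namespace Pool.PRL

open Polynomial Matrix Pool.AVR Pool.AVS Pool.RZ Pool.AVS.RIP

section Aux

variable {F : Type} [Field F]

lemma ordP_spec {P a : F[X]} (hP : Irreducible P) (ha : a ≠ 0) :
    a = P ^ ordP P a * cofP P a ∧ ¬ P ∣ cofP P a := by
  have hf : FiniteMultiplicity P a :=
    FiniteMultiplicity.of_not_isUnit hP.not_isUnit ha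
  have h1 : P ^ ordP P a ∣ a := pow_multiplicity_dvd P a
  have h2 : a = P ^ ordP P a * cofP P a := by
    unfold cofP
    rw [EuclideanDomain.mul_div_cancel' (pow_ne_zero _ hP.ne_zero) h1]
  refine ⟨h2, ?_⟩
  rintro ⟨c, hc⟩
  have h3 : P ^ (ordP P a + 1) ∣ a := by
    refine ⟨c, ?_⟩
    calc a = P ^ ordP P a * cofP P a := h2
      _ = P ^ (ordP P a + 1) * c := by rw [hc, pow_succ]; ring
  exact hf.not_pow_dvd_of_multiplicity_lt (Nat.lt_succ_self _) h3

variable {P : F[X]} {L : Type} [Field L] {O : ValuationSubring L} {ι : RatFunc F →+* L}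

lemma poly_ui (hP : Irreducible P)
    (h : IsComp F (IP P) (algebraMap F[X] (RatFunc F) P) L O ι) {u : F[X]} (hu : ¬ P ∣ u) :
    UI (O : Set L) (ι (rf u)) := by
  have hu0 : u ≠ 0 := fun hh => hu (hh ▸ dvd_zero P)
  have hne : rf u ≠ 0 := by
    unfold rf
    rw [Ne, map_eq_zero_iff _ (RatFunc.algebraMap_injective F)]
    exact hu0
  have hι : ι (rf u) ≠ 0 := by
    rw [Ne, map_eq_zero_iff _ ι.injective]
    exact hne
  have hm : ι (rf u) ∈ O := poly_mem hP h u
  refine ⟨hι, hm, ?_⟩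
  by_contra hc
  have h1 := (h.loc.unif _ hm hι).1 hc
  have h2 := (dvd_iff hP h 1 u).1 (by rw [pow_one]; exact h1)
  rw [pow_one] at h2
  exact hu h2

end Aux

/-- LHS from LHL. -/
theorem lhs_thm (hL : LHLStmt) : LHSStmt := by
  intro F _ _ _ P hM hP L _ O ι h a b ha hb
  obtain ⟨ea, hua⟩ := ordP_spec hP ha
  obtain ⟨eb, hub⟩ := ordP_spec hP hb
  set i := ordP P a with hi
  set j := ordP P b with hj
  set u := cofP P a with hu
  set v := cofP P b with hv
  have h1 : ι (rf a) = ι (rf P) ^ i * ι (rf u) := by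
    rw [← map_pow, ← map_mul]
    unfold rf
    rw [← map_pow, ← map_mul, ← ea]
  have h2 : ι (rf b) = ι (rf P) ^ j * ι (rf v) := by
    rw [← map_pow, ← map_mul]
    unfold rf
    rw [← map_pow, ← map_mul, ← eb]
  rw [h1, h2, hL L O (ι (rf P)) h.loc (ι (rf u)) (ι (rf v)) i j (poly_ui hP h hua)
    (poly_ui hP h hub)]
  set g : F[X] := (-1) ^ (i * j) * u ^ j * v ^ i with hg
  have hgι : (-1) ^ (i * j) * ι (rf u) ^ j * ι (rf v) ^ i = ι (rf g) := by
    rw [hg]
    unfold rf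
    simp only [map_mul, map_pow, map_neg, map_one]
  rw [hgι]
  have hπ : ι (rf P) ≠ 0 := h.loc.pi_ne
  show _ ↔ SqM P g
  constructor
  · rintro ⟨w, hw, hd⟩
    obtain ⟨p, hp⟩ := ex_poly hP h 1 ⟨w, hw⟩
    rw [pow_one] at hp
    have hp' : (w - ι (rf p)) / ι (rf P) ∈ O := hp
    refine ⟨p, ?_⟩
    have h3 : ι (rf (g - p ^ 2)) / ι (rf P) ^ 1 ∈ O := by
      have e1 : ι (rf (g - p ^ 2)) / ι (rf P) ^ 1 = (ι (rf g) - w ^ 2) / ι (rf P) +
          (w - ι (rf p)) / ι (rf P) * (w + ι (rf p)) := by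
        have e2 : ι (rf (g - p ^ 2)) = ι (rf g) - ι (rf p) ^ 2 := by
          unfold rf
          simp only [map_sub, map_pow]
        rw [e2, pow_one]
        field_simp
        ring
      rw [e1]
      exact add_mem hd (mul_mem hp' (add_mem hw (poly_mem hP h p)))
    have h4 := (dvd_iff hP h 1 (g - p ^ 2)).1 h3
    rwa [pow_one] at h4
  · rintro ⟨p, hp⟩
    refine ⟨ι (rf p), poly_mem hP h p, ?_⟩
    have h3 := (dvd_iff hP h 1 (g - p ^ 2)).2 (by rwa [pow_one])
    have e2 : ι (rf (g - p ^ 2)) = ι (rf g) - ι (rf p) ^ 2 := by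
      unfold rf
      simp only [map_sub, map_pow]
    rw [pow_one] at h3
    rw [← e2]
    exact h3

end Pool.PRL
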