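import Pool.Agent.H75.PRL.S5

/-!
# The Poonen-Rains law: the number of cubics of type `T12`
-/

set_option autoImplicit false

namespace Pool.PRL

open Polynomial Matrix Pool.AVR Pool.AVS Pool.RZ

namespace TCT

variable {k : Type} [Field k]

/-- An unordered pair of elements gives the quadratic polynomial with these roots. -/
def qf : Sym2 k → k × k :=
  Sym2.lift ⟨fun r s => (-(r + s), r * s), by
    intro r s
    simp only [add_comm, mul_comm]⟩

theorem qf_mk (r s : k) : qf s(r, s) = (-(r + s), r * s) := rfl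

theorem qf_inj : Function.Injective (qf (k := k)) := by
  intro x y
  induction x using Sym2.ind with
  | _ r s =>
  induction y using Sym2.ind with
  | _ r' s' =>
  intro h
  rw [qf_mk, qf_mk, Prod.mk.injEq] at h
  obtain ⟨h1, h2⟩ := h
  have h1' : r + s = r' + s' := neg_injective h1
  have h3 : (r - r') * (r - s') = 0 := by
    have : s = r' + s' - r := by rw [← h1']; ring
    subst this
    linear_combination -h2
  rcases mul_eq_zero.1 h3 with h4 | h4
  · have hr : r = r' := sub_eq_zero.1 h4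
    subst hr
    have hs : s = s' := add_left_cancel h1'
    rw [hs]
  · have hr : r = s' := sub_eq_zero.1 h4
    subst hr
    have hs : s = r' := by
      have : r + s = r + r' := by rw [h1']; ring
      exact add_left_cancel this
    rw [hs]
    exact Sym2.eq_swap

theorem range_qf : Set.range (qf (k := k)) = {p : k × k | ∃ x : k, x ^ 2 + p.1 * x + p.2 = 0} := by
  ext ⟨b, c⟩
  constructor
  · rintro ⟨z, hz⟩
    induction z using Sym2.ind with
    | _ r s =>
    rw [qf_mk, Prod.mk.injEq] at hz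
    refine ⟨r, ?_⟩
    show r ^ 2 + b * r + c = 0
    rw [← hz.1, ← hz.2]
    ring
  · rintro ⟨x, hx⟩
    have hx' : x ^ 2 + b * x + c = 0 := hx
    refine ⟨s(x, -b - x), ?_⟩
    rw [qf_mk, Prod.mk.injEq]
    constructor
    · ring
    · linear_combination -hx'

theorem card_root [Finite k] :
    {p : k × k | ∃ x : k, x ^ 2 + p.1 * x + p.2 = 0}.ncard = (Nat.card k + 1).choose 2 := by
  classical
  have := Fintype.ofFinite k
  rw [← range_qf, ← Set.image_univ, Set.ncard_image_of_injective _ qf_inj, Set.ncard_univ,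
    Nat.card_eq_fintype_card, Sym2.card, Nat.card_eq_fintype_card]

theorem card_noroot [Finite k] :
    2 * {p : k × k | ∀ x : k, x ^ 2 + p.1 * x + p.2 ≠ 0}.ncard = Nat.card k ^ 2 - Nat.card k := by
  have hc : {p : k × k | ∀ x : k, x ^ 2 + p.1 * x + p.2 ≠ 0} =
      {p : k × k | ∃ x : k, x ^ 2 + p.1 * x + p.2 = 0}ᶜ := by
    ext p
    simp
  have h1 := Set.ncard_add_ncard_compl {p : k × k | ∃ x : k, x ^ 2 + p.1 * x + p.2 = 0}
  rw [← hc, card_root, Nat.card_prod] at h1
  have h2 : 2 * (Nat.card k + 1).choose 2 = (Nat.card k + 1) * Nat.card k := by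
    have h5 : 2 ∣ (Nat.card k + 1) * Nat.card k := by
      rw [mul_comm]
      exact (Nat.even_mul_succ_self _).two_dvd
    rw [Nat.choose_two_right, Nat.add_sub_cancel, Nat.mul_div_cancel' h5]
  set q := Nat.card k
  set N := {p : k × k | ∀ x : k, x ^ 2 + p.1 * x + p.2 ≠ 0}.ncard
  have h3 : 2 * N + q = q ^ 2 := by nlinarith
  omega

/-- The cubic polynomial with the root `e` and the quadratic factor `(β, γ)`. -/
def cf (p : k × k × k) : k × k × k := (p.2.1 - p.1, p.2.2 - p.1 * p.2.1, -(p.1 * p.2.2))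

theorem cf_inj : Set.InjOn (cf (k := k))
    {p | ∀ x : k, x ^ 2 + p.2.1 * x + p.2.2 ≠ 0} := by
  rintro ⟨e, b, c⟩ h ⟨e', b', c'⟩ h' heq
  simp only [Set.mem_setOf_eq] at h h'
  simp only [cf, Prod.mk.injEq] at heq
  obtain ⟨h1, h2, h3⟩ := heq
  have h4 : (e - e') * (e ^ 2 + b' * e + c') = 0 := by
    linear_combination -e ^ 2 * h1 - e * h2 - h3
  have he : e = e' := by
    rcases mul_eq_zero.1 h4 with h5 | h5
    · exact sub_eq_zero.1 h5
    · exact absurd h5 (h' e)
  subst he
  have hb : b = b' := by linear_combination h1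
  subst hb
  have hcc : c = c' := by linear_combination h2
  subst hcc
  rfl

theorem image_cf : (cf (k := k)) '' {p | ∀ x : k, x ^ 2 + p.2.1 * x + p.2.2 ≠ 0} =
    {t : k × k × k | T12R t} := by
  ext t
  constructor
  · rintro ⟨⟨e, b, c⟩, h, rfl⟩
    exact ⟨e, b, c, h, rfl⟩
  · rintro ⟨e, b, c, h, rfl⟩
    exact ⟨(e, b, c), h, rfl⟩

end TCT

open TCT in
theorem tct_thm : TCTStmt := by
  intro k _ _
  have h1 : {t : k × k × k | T12R t}.ncard =
      Nat.card k * {p : k × k | ∀ x : k, x ^ 2 + p.1 * x + p.2 ≠ 0}.ncard := by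
    rw [← image_cf, Set.ncard_image_of_injOn cf_inj]
    have : {p : k × k × k | ∀ x : k, x ^ 2 + p.2.1 * x + p.2.2 ≠ 0} =
        (Set.univ : Set k) ×ˢ {p : k × k | ∀ x : k, x ^ 2 + p.1 * x + p.2 ≠ 0} := by
      ext ⟨e, b, c⟩
      simp
    rw [this, Set.ncard_prod, Set.ncard_univ]
  have h2 := card_noroot (k := k)
  rw [h1, Nat.mul_left_comm, h2, Nat.mul_sub]
  congr 1
  · ring
  · ring

end Pool.PRL
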